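import Pool.Agent.Y234.EM.Stm

/-!
# From local to global
-/

set_option autoImplicit false

namespace Pool.Agent.Y155.EM

open Pool.Agent.H826R3.SM Pool.Agent.Y234.EM Module

/-- the zero ring -/
theorem fam_zero (k : Type) [Field k] (A : Type) [CommRing A] [Algebra k A] [Subsingleton A] :
    Fam k A 0 := by
  refine ⟨Fin 0 → PowerSeries k, inferInstance, inferInstance, inferInstance, inferInstance,
    ?_, ?_, ?_⟩
  · have : Subsingleton (TensorProduct (PowerSeries k) (LL k) (Fin 0 → PowerSeries k)) :=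
      inferInstance
    exact ⟨fun x _ => Subsingleton.elim _ _⟩
  · simp
  · exact ⟨{ toFun := fun _ => 0
             map_one' := Subsingleton.elim _ _
             map_mul' := fun _ _ => Subsingleton.elim _ _
             map_zero' := rfl
             map_add' := fun _ _ => Subsingleton.elim _ _ },
      fun y => ⟨0, Subsingleton.elim _ _⟩, fun c => Subsingleton.elim _ _⟩

theorem crt_equiv {k S : Type} [Field k] [CommRing S] [Algebra k S] (I I1 I2 : Ideal S)
    (hI : I = I1 ⊓ I2) (hc : IsCoprime I1 I2) :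
    Nonempty ((S ⧸ I) ≃ₐ[k] ((S ⧸ I1) × (S ⧸ I2))) := by
  have h1 : I ≤ I1 := hI ▸ inf_le_left
  have h2 : I ≤ I2 := hI ▸ inf_le_right
  let f : (S ⧸ I) →ₐ[k] ((S ⧸ I1) × (S ⧸ I2)) :=
    (Ideal.Quotient.factorₐ k h1).prod (Ideal.Quotient.factorₐ k h2)
  have hf : Function.Bijective f := by
    constructor
    · rw [injective_iff_map_eq_zero]
      intro y hy
      obtain ⟨y, rfl⟩ := Ideal.Quotient.mk_surjective y
      have hy1 : Ideal.Quotient.mk I1 y = 0 := congrArg Prod.fst hy
      have hy2 : Ideal.Quotient.mk I2 y = 0 := congrArg Prod.snd hy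
      rw [Ideal.Quotient.eq_zero_iff_mem] at hy1 hy2 ⊢
      rw [hI]
      exact ⟨hy1, hy2⟩
    · rintro ⟨a, b⟩
      obtain ⟨a, rfl⟩ := Ideal.Quotient.mk_surjective a
      obtain ⟨b, rfl⟩ := Ideal.Quotient.mk_surjective b
      obtain ⟨u, hu, w, hw, huw⟩ := Ideal.isCoprime_iff_exists.1 hc
      refine ⟨Ideal.Quotient.mk I (w * a + u * b), ?_⟩
      have h3 : Ideal.Quotient.mk I1 (w * a + u * b) = Ideal.Quotient.mk I1 a := by
        rw [Ideal.Quotient.eq]
        have h4 : w * a + u * b - a = u * (b - a) := by linear_combination a * huw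
        rw [h4]
        exact I1.mul_mem_right _ hu
      have h5 : Ideal.Quotient.mk I2 (w * a + u * b) = Ideal.Quotient.mk I2 b := by
        rw [Ideal.Quotient.eq]
        have h4 : w * a + u * b - b = w * (a - b) := by linear_combination b * huw
        rw [h4]
        exact I2.mul_mem_right _ hw
      exact Prod.ext h3 h5
  exact ⟨AlgEquiv.ofBijective f hf⟩

theorem fin_of_le {k S : Type} [Field k] [CommRing S] [Algebra k S] {I J : Ideal S} (h : I ≤ J)
    (hf : Module.Finite k (S ⧸ I)) : Module.Finite k (S ⧸ J) :=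
  Module.Finite.of_surjective (Ideal.Quotient.factorₐ k h).toLinearMap
    (Ideal.Quotient.factor_surjective h)

theorem dg_le_of_le {k S : Type} [Field k] [CommRing S] [Algebra k S] {I J : Ideal S} (h : I ≤ J)
    (hf : Module.Finite k (S ⧸ I)) : finrank k (S ⧸ J) ≤ finrank k (S ⧸ I) :=
  LinearMap.finrank_le_finrank_of_surjective (f := (Ideal.Quotient.factorₐ k h).toLinearMap)
    (Ideal.Quotient.factor_surjective h)

/-- the translation -/
noncomputable def tr {k : Type} [Field k] {v : ℕ} (a : Fin v → k) :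
    MvPolynomial (Fin v) k ≃ₐ[k] MvPolynomial (Fin v) k :=
  AlgEquiv.ofAlgHom (MvPolynomial.aeval fun i => MvPolynomial.X i + MvPolynomial.C (a i))
    (MvPolynomial.aeval fun i => MvPolynomial.X i - MvPolynomial.C (a i))
    (by
      apply MvPolynomial.algHom_ext
      intro i
      simp [MvPolynomial.algebraMap_eq])
    (by
      apply MvPolynomial.algHom_ext
      intro i
      simp [MvPolynomial.algebraMap_eq])

theorem tr_X {k : Type} [Field k] {v : ℕ} (a : Fin v → k) (i : Fin v) :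
    tr a (MvPolynomial.X i - MvPolynomial.C (a i)) = MvPolynomial.X i := by
  change MvPolynomial.aeval (fun i => MvPolynomial.X i + MvPolynomial.C (a i)) _ = _
  simp [MvPolynomial.algebraMap_eq]

theorem sub_mem_mm {k : Type} [Field k] {v : ℕ} (G : MvPolynomial (Fin v) k) :
    G - MvPolynomial.C (MvPolynomial.constantCoeff G) ∈ mm k v := by
  have h1 : mm k v = Ideal.span (MvPolynomial.X '' Set.univ) := by rw [Set.image_univ]
  rw [h1, MvPolynomial.mem_ideal_span_X_image]
  intro m hm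
  by_contra hcon
  push Not at hcon
  have h2 : m = 0 := by
    ext i
    exact hcon i (Set.mem_univ i)
  subst h2
  rw [MvPolynomial.mem_support_iff] at hm
  apply hm
  simp [MvPolynomial.constantCoeff_eq]

theorem transport {k : Type} [Field k] {v : ℕ} (J J' : Ideal (MvPolynomial (Fin v) k))
    (τ : MvPolynomial (Fin v) k ≃ₐ[k] MvPolynomial (Fin v) k)
    (hJ : J' = J.map (τ : MvPolynomial (Fin v) k →+* MvPolynomial (Fin v) k)) (e : ℕ)
    (h : PP J' e) : PP J e := by
  have E : ∀ n : ℕ, Nonempty ((MvPolynomial (Fin v) k ⧸ J ^ n) ≃ₐ[k]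
      (MvPolynomial (Fin v) k ⧸ J' ^ n)) := by
    intro n
    refine ⟨Ideal.quotientEquivAlg (J ^ n) (J' ^ n) τ ?_⟩
    rw [hJ, Ideal.map_pow]
  refine ⟨fun N hN => ?_, ?_⟩
  · obtain ⟨ε⟩ := E N
    exact (h.1 N hN).of_surjective ε.symm.toAlgHom ε.symm.surjective
  · obtain ⟨N0, hN0⟩ := h.2
    refine ⟨N0, fun N hN => ?_⟩
    obtain ⟨ε⟩ := E (N + N0)
    have h1 : dg (J ^ (N + N0)) = dg (J' ^ (N + N0)) := ε.toLinearEquiv.finrank_eq
    rw [h1]
    exact hN0 N hN

theorem local_case {k : Type} [Field k] [IsAlgClosed k] {v : ℕ}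
    (hyp : ∀ (J : Ideal (MvPolynomial (Fin v) k)) (c : ℕ), mm k v ^ c ≤ J → J ≤ mm k v →
      ∃ e, PP J e) (J : Ideal (MvPolynomial (Fin v) k))
    (hf : Module.Finite k (MvPolynomial (Fin v) k ⧸ J))
    (hloc : IsLocalRing (MvPolynomial (Fin v) k ⧸ J)) : ∃ e, PP J e := by
  have hart : IsArtinianRing (MvPolynomial (Fin v) k ⧸ J) := IsArtinianRing.of_finite k _
  have hex : ∀ i : Fin v, ∃ a : k, ∃ n : ℕ,
      (MvPolynomial.X i - MvPolynomial.C a) ^ n ∈ J := by
    intro i
    obtain ⟨a, ha⟩ := spectrum.nonempty_of_isAlgClosed_of_finiteDimensional k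
      (Ideal.Quotient.mk J (MvPolynomial.X i))
    have h1 : algebraMap k _ a - Ideal.Quotient.mk J (MvPolynomial.X i) ∈
        IsLocalRing.maximalIdeal (MvPolynomial (Fin v) k ⧸ J) :=
      (IsLocalRing.mem_maximalIdeal _).2 ha
    obtain ⟨n, hn⟩ := IsArtinianRing.isNilpotent_jacobson_bot (R := MvPolynomial (Fin v) k ⧸ J)
    rw [IsLocalRing.jacobson_eq_maximalIdeal ⊥ bot_ne_top] at hn
    have h2 := Ideal.pow_mem_pow h1 n
    rw [hn, Ideal.zero_eq_bot, Ideal.mem_bot] at h2
    refine ⟨a, n, ?_⟩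
    rw [← Ideal.Quotient.eq_zero_iff_mem, map_pow, map_sub]
    have h3 : Ideal.Quotient.mk J (MvPolynomial.C a) =
      algebraMap k (MvPolynomial (Fin v) k ⧸ J) a := rfl
    have h4 : Ideal.Quotient.mk J (MvPolynomial.X i) - Ideal.Quotient.mk J (MvPolynomial.C a) =
        (-1) * (algebraMap k (MvPolynomial (Fin v) k ⧸ J) a -
          Ideal.Quotient.mk J (MvPolynomial.X i)) := by
      rw [h3]
      ring
    rw [h4, mul_pow, h2, mul_zero]
  choose a n ha using hex
  have hJtop : J ≠ ⊤ := by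
    intro h
    have : Subsingleton (MvPolynomial (Fin v) k ⧸ J) := by
      rw [h]
      exact Ideal.Quotient.subsingleton_iff.2 rfl
    exact not_subsingleton _ this
  let J' := J.map ((tr a : MvPolynomial (Fin v) k ≃ₐ[k] MvPolynomial (Fin v) k) :
    MvPolynomial (Fin v) k →+* MvPolynomial (Fin v) k)
  have hX : ∀ i, (MvPolynomial.X i : MvPolynomial (Fin v) k) ∈ J'.radical := by
    intro i
    refine ⟨n i, ?_⟩
    have h1 := Ideal.mem_map_of_mem ((tr a : MvPolynomial (Fin v) k ≃ₐ[k]
      MvPolynomial (Fin v) k) : MvPolynomial (Fin v) k →+* MvPolynomial (Fin v) k) (ha i)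
    rw [map_pow] at h1
    have h2 : ((tr a : MvPolynomial (Fin v) k ≃ₐ[k] MvPolynomial (Fin v) k) :
        MvPolynomial (Fin v) k →+* MvPolynomial (Fin v) k)
        (MvPolynomial.X i - MvPolynomial.C (a i)) = MvPolynomial.X i := tr_X a i
    rw [h2] at h1
    exact h1
  have hmm : mm k v ≤ J'.radical := by
    refine Ideal.span_le.2 ?_
    rintro _ ⟨i, rfl⟩
    exact hX i
  have hfg : (mm k v).FG := (isNoetherianRing_iff_ideal_fg _).1 inferInstance _
  obtain ⟨c, hc⟩ := Ideal.exists_pow_le_of_le_radical_of_fg hmm hfg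
  have hJ'top : J' ≠ ⊤ := by
    intro h
    apply hJtop
    have h1 : J = J'.comap ((tr a : MvPolynomial (Fin v) k ≃ₐ[k] MvPolynomial (Fin v) k) :
        MvPolynomial (Fin v) k →+* MvPolynomial (Fin v) k) :=
      (Ideal.comap_map_of_bijective _ (tr a).bijective).symm
    rw [h1, h, Ideal.comap_top]
  have hle : J' ≤ mm k v := by
    intro G hG
    have h1 := sub_mem_mm G
    by_cases h0 : MvPolynomial.constantCoeff G = 0
    · rwa [h0, map_zero, sub_zero] at h1
    · exfalso
      apply hJ'top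
      rw [← Ideal.radical_eq_top]
      have h2 : MvPolynomial.C (MvPolynomial.constantCoeff G) ∈ J'.radical := by
        have h3 := (J'.radical).sub_mem (Ideal.le_radical hG) (hmm h1)
        rwa [sub_sub_cancel] at h3
      refine Ideal.eq_top_of_isUnit_mem _ h2 ?_
      exact (IsUnit.mk0 _ h0).map MvPolynomial.C
  obtain ⟨e, he⟩ := hyp J' c hc hle
  exact ⟨e, transport J J' (tr a) rfl e he⟩

theorem glob (h : S_LECH) : S_GLOB := by
  intro k _ _ v hyp
  have key : ∀ (n : ℕ) (J : Ideal (MvPolynomial (Fin v) k)),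
      Module.Finite k (MvPolynomial (Fin v) k ⧸ J) → dg J = n → ∃ e, PP J e := by
    intro n
    induction n using Nat.strong_induction_on with
    | _ n ih =>
    intro J hJ hn
    by_cases htop : J = ⊤
    · refine ⟨0, fun N hN => ?_, 0, fun N _ => ?_⟩
      · have : Subsingleton (MvPolynomial (Fin v) k ⧸ J ^ N) := by
          rw [htop, Ideal.top_pow]
          exact Ideal.Quotient.subsingleton_iff.2 rfl
        rw [zero_mul]
        exact fam_zero k _
      · rw [zero_mul]
        exact Nat.zero_le _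
    have hnt : Nontrivial (MvPolynomial (Fin v) k ⧸ J) := Ideal.Quotient.nontrivial_iff.2 htop
    by_cases hloc : IsLocalRing (MvPolynomial (Fin v) k ⧸ J)
    · exact local_case hyp J hJ hloc
    have hart : IsArtinianRing (MvPolynomial (Fin v) k ⧸ J) := IsArtinianRing.of_finite k _
    obtain ⟨e, he, he1, he2⟩ := exists_idem hloc
    let J1 : Ideal (MvPolynomial (Fin v) k) := (Ideal.span {e}).comap (Ideal.Quotient.mk J)
    let J2 : Ideal (MvPolynomial (Fin v) k) := (Ideal.span {1 - e}).comap (Ideal.Quotient.mk J)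
    have hJ1 : J ≤ J1 := by
      intro x hx
      rw [Ideal.mem_comap, Ideal.Quotient.eq_zero_iff_mem.2 hx]
      exact zero_mem _
    have hJ2 : J ≤ J2 := by
      intro x hx
      rw [Ideal.mem_comap, Ideal.Quotient.eq_zero_iff_mem.2 hx]
      exact zero_mem _
    have hinf : J = J1 ⊓ J2 := by
      refine le_antisymm (le_inf hJ1 hJ2) ?_
      rintro x ⟨hx1, hx2⟩
      have hy1 : Ideal.Quotient.mk J x ∈ Ideal.span {e} := hx1
      have hy2 : Ideal.Quotient.mk J x ∈ Ideal.span {1 - e} := hx2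
      rw [← Ideal.Quotient.eq_zero_iff_mem]
      rw [Ideal.mem_span_singleton] at hy1 hy2
      obtain ⟨a, ha⟩ := hy1
      obtain ⟨b, hb⟩ := hy2
      have h3 : e * Ideal.Quotient.mk J x = Ideal.Quotient.mk J x := by
        rw [ha, ← mul_assoc, he]
      have h4 : e * Ideal.Quotient.mk J x = 0 := by
        rw [hb, ← mul_assoc, mul_sub, mul_one, he, sub_self, zero_mul]
      rw [← h3, h4]
    have hcop : IsCoprime J1 J2 := by
      rw [Ideal.isCoprime_iff_exists]
      obtain ⟨E, hE⟩ := Ideal.Quotient.mk_surjective e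
      refine ⟨E, ?_, 1 - E, ?_, by ring⟩
      · change Ideal.Quotient.mk J E ∈ Ideal.span {e}
        rw [hE]
        exact Ideal.mem_span_singleton_self e
      · change Ideal.Quotient.mk J (1 - E) ∈ Ideal.span {1 - e}
        rw [map_sub, map_one, hE]
        exact Ideal.mem_span_singleton_self _
    have ht1 : J1 ≠ ⊤ := by
      intro h0
      apply he1
      have h1 : (1 : MvPolynomial (Fin v) k) ∈ J1 := h0 ▸ Submodule.mem_top
      have h2 : Ideal.Quotient.mk J 1 ∈ Ideal.span {e} := h1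
      rw [map_one] at h2
      exact isUnit_of_dvd_one (Ideal.mem_span_singleton.1 h2)
    have ht2 : J2 ≠ ⊤ := by
      intro h0
      apply he2
      have h1 : (1 : MvPolynomial (Fin v) k) ∈ J2 := h0 ▸ Submodule.mem_top
      have h2 : Ideal.Quotient.mk J 1 ∈ Ideal.span {1 - e} := h1
      rw [map_one] at h2
      exact isUnit_of_dvd_one (Ideal.mem_span_singleton.1 h2)
    have f1 := fin_of_le hJ1 hJ
    have f2 := fin_of_le hJ2 hJ
    have hpow : ∀ m : ℕ, J ^ m = J1 ^ m ⊓ J2 ^ m := by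
      intro m
      rw [← Ideal.mul_eq_inf_of_isCoprime hcop.pow, ← mul_pow, Ideal.mul_eq_inf_of_isCoprime hcop,
        ← hinf]
    have heq : ∀ m : ℕ, Nonempty ((MvPolynomial (Fin v) k ⧸ J ^ m) ≃ₐ[k]
        ((MvPolynomial (Fin v) k ⧸ J1 ^ m) × (MvPolynomial (Fin v) k ⧸ J2 ^ m))) := fun m =>
      crt_equiv (J ^ m) (J1 ^ m) (J2 ^ m) (hpow m) hcop.pow
    have hdg : ∀ m : ℕ, dg (J ^ m) = dg (J1 ^ m) + dg (J2 ^ m) := by
      intro m
      obtain ⟨ε⟩ := heq m
      have := (h k v J1 m).1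
      have := (h k v J2 m).1
      have h1 := ε.toLinearEquiv.finrank_eq
      rw [Module.finrank_prod] at h1
      exact h1
    have hdg1 := hdg 1
    rw [pow_one, pow_one, pow_one] at hdg1
    have n1 : Nontrivial (MvPolynomial (Fin v) k ⧸ J1) := Ideal.Quotient.nontrivial_iff.2 ht1
    have n2 : Nontrivial (MvPolynomial (Fin v) k ⧸ J2) := Ideal.Quotient.nontrivial_iff.2 ht2
    have p1 : 0 < dg J1 := Module.finrank_pos
    have p2 : 0 < dg J2 := Module.finrank_pos
    obtain ⟨e1, g1, N1, g1'⟩ := ih (dg J1) (by omega) J1 f1 rfl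
    obtain ⟨e2, g2, N2, g2'⟩ := ih (dg J2) (by omega) J2 f2 rfl
    refine ⟨e1 + e2, fun N hN => ?_, max N1 N2, fun N hN => ?_⟩
    · obtain ⟨ε⟩ := heq N
      rw [add_mul]
      exact ((g1 N hN).prod (g2 N hN)).of_surjective ε.symm.toAlgHom ε.symm.surjective
    · rw [hdg, add_mul]
      have q1 := g1' N hN
      have q2 := g2' N hN
      have r1 : dg (J1 ^ (N + N1)) ≤ dg (J1 ^ (N + max N1 N2)) :=
        dg_le_of_le (Ideal.pow_le_pow_right (by omega)) (h k v J1 _).1
      have r2 : dg (J2 ^ (N + N2)) ≤ dg (J2 ^ (N + max N1 N2)) :=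
        dg_le_of_le (Ideal.pow_le_pow_right (by omega)) (h k v J2 _).1
      omega
  intro J hJ
  exact key _ J hJ rfl

end Pool.Agent.Y155.EM
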